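import Pool.Agent.Y714.KF.Stm

/-! Project KF, job VOL: the region of strictly reduced normalised pairs has positive volume. -/

set_option autoImplicit false
set_option linter.unusedSectionVars false

namespace Pool.Agent.Y983.KF

open NumberField FractionalIdeal Module Finset ComplexConjugate MeasureTheory Filter Topology
open scoped nonZeroDivisors
open Pool.Agent.Y714.KF

variable {K : Type} [Field K] [NumberField K]

section lin

variable {ι : Type} [Fintype ι] [DecidableEq ι]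

/-- the real linear map given by the multiplication by `v` -/
noncomputable def mulA (b : Basis ι ℚ K) (v : K) : (ι → ℝ) →ₗ[ℝ] (ι → ℝ) :=
  Matrix.mulVecLin ((LinearMap.toMatrix b b (LinearMap.mulLeft ℚ v)).map (fun q : ℚ => (q : ℝ)))

theorem sg_mulA (b : Basis ι ℚ K) (v : K) (σ : K →+* ℂ) (x : ι → ℝ) :
    sg b σ (mulA b v x) = σ v * sg b σ x := by
  set M := LinearMap.toMatrix b b (LinearMap.mulLeft ℚ v) with hM
  have h1 : ∀ j, v * b j = ∑ i, M i j • b i := by
    intro j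
    have h2 := b.sum_repr (v * b j)
    rw [← h2]
    refine sum_congr rfl fun i _ => ?_
    rw [hM, LinearMap.toMatrix_apply, LinearMap.mulLeft_apply]
  have h3 : ∀ j, σ v * σ (b j) = ∑ i, ((M i j : ℚ) : ℂ) * σ (b i) := by
    intro j
    rw [← map_mul, h1 j, map_sum]
    refine sum_congr rfl fun i _ => ?_
    rw [Algebra.smul_def, map_mul]
    congr 1
    simp
  unfold sg
  have h4 : ∀ i, mulA b v x i = ∑ j, ((M i j : ℚ) : ℝ) * x j := by
    intro i
    simp [mulA, Matrix.mulVec, dotProduct, hM]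
  simp_rw [h4]
  push_cast
  simp_rw [sum_mul]
  rw [sum_comm, mul_sum]
  refine sum_congr rfl fun j _ => ?_
  have h5 : σ v * ((x j : ℂ) * σ (b j)) = (x j : ℂ) * (σ v * σ (b j)) := by ring
  rw [h5, h3 j, mul_sum]
  refine sum_congr rfl fun i _ => ?_
  ring

/-- the action of a number and a matrix -/
noncomputable def TT (b : Basis ι ℚ K) (v : K) (m n k l : ℝ) : (ι ⊕ ι → ℝ) →ₗ[ℝ] (ι ⊕ ι → ℝ) where
  toFun u := Sum.elim
    (m • mulA b v (fun i => u (Sum.inl i)) + n • mulA b v (fun i => u (Sum.inr i)))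
    (k • mulA b v (fun i => u (Sum.inl i)) + l • mulA b v (fun i => u (Sum.inr i)))
  map_add' u u' := by
    have e1 : (fun i => (u + u') (Sum.inl i)) = (fun i => u (Sum.inl i)) + fun i => u' (Sum.inl i) :=
      rfl
    have e2 : (fun i => (u + u') (Sum.inr i)) = (fun i => u (Sum.inr i)) + fun i => u' (Sum.inr i) :=
      rfl
    rw [e1, e2, map_add, map_add]
    funext i
    rcases i with i | i <;>
    · simp only [Sum.elim_inl, Sum.elim_inr, Pi.add_apply, Pi.smul_apply, smul_eq_mul]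
      ring
  map_smul' c u := by
    have e1 : (fun i => (c • u) (Sum.inl i)) = c • (fun i => u (Sum.inl i)) := rfl
    have e2 : (fun i => (c • u) (Sum.inr i)) = c • (fun i => u (Sum.inr i)) := rfl
    rw [e1, e2, map_smul, map_smul]
    funext i
    rcases i with i | i <;>
    · simp only [Sum.elim_inl, Sum.elim_inr, Pi.add_apply, Pi.smul_apply, smul_eq_mul,
        RingHom.id_apply]
      ring

theorem TT_inl (b : Basis ι ℚ K) (v : K) (m n k l : ℝ) (u : ι ⊕ ι → ℝ) :
    (fun i => TT b v m n k l u (Sum.inl i)) =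
      m • mulA b v (fun i => u (Sum.inl i)) + n • mulA b v (fun i => u (Sum.inr i)) := rfl

theorem TT_inr (b : Basis ι ℚ K) (v : K) (m n k l : ℝ) (u : ι ⊕ ι → ℝ) :
    (fun i => TT b v m n k l u (Sum.inr i)) =
      k • mulA b v (fun i => u (Sum.inl i)) + l • mulA b v (fun i => u (Sum.inr i)) := rfl

theorem rw2_TT (b : Basis ι ℚ K) (v : K) (m n k l : ℝ) (u : ι ⊕ ι → ℝ) :
    rw2 b (TT b v m n k l u) = fun σ => gl m n k l (σ v • rw2 b u σ) := by
  funext σ
  simp only [rw2, rv, TT_inl, TT_inr, sg_add, sg_smul, sg_mulA, gl, Prod.smul_mk, smul_eq_mul]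

theorem mulA_inj (b : Basis ι ℚ K) {v : K} (hv : v ≠ 0) {x : ι → ℝ} (h : mulA b v x = 0) :
    x = 0 := by
  apply sg_ne b
  intro σ
  have h1 := sg_mulA b v σ x
  rw [h] at h1
  have h2 : sg b σ (0 : ι → ℝ) = 0 := by simp [sg]
  rw [h2] at h1
  exact (mul_eq_zero.1 h1.symm).resolve_left ((map_ne_zero σ).2 hv)

theorem TT_det (b : Basis ι ℚ K) {v : K} (hv : v ≠ 0) {m n k l : ℝ} (hdet : m * l - n * k ≠ 0) :
    LinearMap.det (TT b v m n k l) ≠ 0 := by
  have hinj : Function.Injective (TT b v m n k l) := by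
    rw [← LinearMap.ker_eq_bot, LinearMap.ker_eq_bot']
    intro u hu
    have h1 : m • mulA b v (fun i => u (Sum.inl i)) + n • mulA b v (fun i => u (Sum.inr i)) = 0 := by
      rw [← TT_inl b v m n k l u, hu]; rfl
    have h2 : k • mulA b v (fun i => u (Sum.inl i)) + l • mulA b v (fun i => u (Sum.inr i)) = 0 := by
      rw [← TT_inr b v m n k l u, hu]; rfl
    have h3 : (m * l - n * k) • mulA b v (fun i => u (Sum.inl i)) = 0 := by
      have : (m * l - n * k) • mulA b v (fun i => u (Sum.inl i)) =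
          l • (m • mulA b v (fun i => u (Sum.inl i)) + n • mulA b v (fun i => u (Sum.inr i))) -
          n • (k • mulA b v (fun i => u (Sum.inl i)) + l • mulA b v (fun i => u (Sum.inr i))) := by
        module
      rw [this, h1, h2, smul_zero, smul_zero, sub_zero]
    have h4 : (m * l - n * k) • mulA b v (fun i => u (Sum.inr i)) = 0 := by
      have : (m * l - n * k) • mulA b v (fun i => u (Sum.inr i)) =
          m • (k • mulA b v (fun i => u (Sum.inl i)) + l • mulA b v (fun i => u (Sum.inr i))) -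
          k • (m • mulA b v (fun i => u (Sum.inl i)) + n • mulA b v (fun i => u (Sum.inr i))) := by
        module
      rw [this, h1, h2, smul_zero, smul_zero, sub_zero]
    have h5 := mulA_inj b hv ((smul_eq_zero.1 h3).resolve_left hdet)
    have h6 := mulA_inj b hv ((smul_eq_zero.1 h4).resolve_left hdet)
    funext i
    rcases i with i | i
    · exact congrFun h5 i
    · exact congrFun h6 i
  have := (LinearEquiv.ofInjectiveEndo (TT b v m n k l) hinj).isUnit_det'
  exact this.ne_zero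

theorem null_TT (b : Basis ι ℚ K) {v : K} (hv : v ≠ 0) {m n k l : ℝ} (hdet : m * l - n * k ≠ 0)
    {s : Set (ι ⊕ ι → ℝ)} (hs : volume s = 0) : volume (TT b v m n k l ⁻¹' s) = 0 := by
  rw [Measure.addHaar_preimage_linearMap _ (TT_det b hv hdet), hs, mul_zero]

theorem continuous_rw2 (b : Basis ι ℚ K) (σ : K →+* ℂ) :
    Continuous fun u : ι ⊕ ι → ℝ => rw2 b u σ := by
  unfold rw2 rv
  refine Continuous.prodMk ?_ ?_
  · exact (continuous_sg b σ).comp (by fun_prop)
  · exact (continuous_sg b σ).comp (by fun_prop)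

theorem isOpen_nd (b : Basis ι ℚ K) :
    IsOpen {u : ι ⊕ ι → ℝ | ∀ σ τ : K →+* ℂ, σ ≠ τ → br (rw2 b u σ) (rw2 b u τ) ≠ 0} := by
  have h : {u : ι ⊕ ι → ℝ | ∀ σ τ : K →+* ℂ, σ ≠ τ → br (rw2 b u σ) (rw2 b u τ) ≠ 0} =
      ⋂ σ : K →+* ℂ, ⋂ τ : K →+* ℂ, {u | σ ≠ τ → br (rw2 b u σ) (rw2 b u τ) ≠ 0} := by
    ext u; simp
  rw [h]
  refine isOpen_iInter_of_finite fun σ => isOpen_iInter_of_finite fun τ => ?_
  by_cases hst : σ = τ
  · have : {u : ι ⊕ ι → ℝ | σ ≠ τ → br (rw2 b u σ) (rw2 b u τ) ≠ 0} = Set.univ := by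
      ext u; simp [hst]
    rw [this]; exact isOpen_univ
  · have : {u : ι ⊕ ι → ℝ | σ ≠ τ → br (rw2 b u σ) (rw2 b u τ) ≠ 0} =
        {u | br (rw2 b u σ) (rw2 b u τ) ≠ 0} := by
      ext u; simp [hst]
    rw [this]
    refine isOpen_ne_fun ?_ continuous_const
    exact continuous_br.comp ((continuous_rw2 b σ).prodMk (continuous_rw2 b τ))

end lin

/-- every nondegenerate point can be moved to the closed region -/
theorem exists_move (hodd : Odd (finrank ℚ K)) (hn : 3 ≤ finrank ℚ K)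
    (b : Basis (Fin (finrank ℚ K)) ℚ K) (κ : Fin (Units.rank K) → ℝ)
    (u : Fin (finrank ℚ K) ⊕ Fin (finrank ℚ K) → ℝ)
    (hnd : ∀ σ τ : K →+* ℂ, σ ≠ τ → br (rw2 b u σ) (rw2 b u τ) ≠ 0) (hpm : pm (rw2 b u) < 1) :
    ∃ (v : (𝓞 K)ˣ) (m n k l : ℤ) (j : ℕ), (m * l - n * k = 1 ∨ m * l - n * k = -1) ∧
      TT b (v : K) m n k l u ∈ Dc b κ (1 / ((j : ℝ) + 1)) := by
  have hcard : 2 ≤ Fintype.card (K →+* ℂ) := by rw [card_emb]; omega
  have hv : 0 < pm (rw2 b u) := pm_pos hcard hnd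
  obtain ⟨C, _, hC⟩ := ineqs (J := K →+* ℂ) (by rw [card_emb]; exact hodd)
  have hx := (hC _ hv).1
  obtain ⟨v, hnz⟩ := exists_unit_nz hv hx κ
  have hv0 : (v : K) ≠ 0 := Units.coe_ne_zero v
  set w : (K →+* ℂ) → ℂ × ℂ := fun σ => σ (v : K) • rw2 b u σ with hw
  have hprod : ∏ τ : K →+* ℂ, ‖τ (v : K)‖ ^ 2 = 1 := by
    have h := sum_log_unit v
    have h0 : ∀ τ : K →+* ℂ, ‖τ (v : K)‖ ≠ 0 := fun τ => by
      rw [norm_ne_zero_iff]
      exact (map_ne_zero τ).2 hv0
    rw [← Real.log_prod (fun τ _ => h0 τ)] at h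
    have h1 : 0 < ∏ τ : K →+* ℂ, ‖τ (v : K)‖ :=
      prod_pos fun τ _ => lt_of_le_of_ne (norm_nonneg _) (h0 τ).symm
    rw [prod_pow, Real.eq_one_of_pos_of_log_eq_zero h1 h, one_pow]
  have hwpm : pm w = pm (rw2 b u) := by
    rw [hw, pm_smul (fun σ : K →+* ℂ => σ (v : K)) (rw2 b u), hprod, one_mul]
  have hwnd : ∀ σ τ : K →+* ℂ, σ ≠ τ → br (w σ) (w τ) ≠ 0 := by
    intro σ τ hst
    have h1 : br (w σ) (w τ) = σ (v : K) * τ (v : K) * br (rw2 b u σ) (rw2 b u τ) := by
      rw [hw]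
      unfold br
      simp only [Prod.smul_fst, Prod.smul_snd, smul_eq_mul]
      ring
    rw [h1]
    exact mul_ne_zero (mul_ne_zero ((map_ne_zero σ).2 hv0) ((map_ne_zero τ).2 hv0)) (hnd σ τ hst)
  have hw0 : 0 < pm w := hwpm ▸ hv
  have hwx := (hC _ hw0).1
  -- reduction
  set x := mulA b (v : K) (fun i => u (Sum.inl i)) with hxd
  set y := mulA b (v : K) (fun i => u (Sum.inr i)) with hyd
  have hrv : rv b x y = w := by
    funext σ
    simp only [rv, hxd, hyd, sg_mulA, hw, rw2, Prod.smul_mk, smul_eq_mul]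
  set A := bf b x x with hA
  set S := bf b x y with hS
  set D := bf b y y with hD
  have hA0 : 0 ≤ A := bf_self_nonneg b x
  have hD0 : 0 ≤ D := bf_self_nonneg b y
  have hpos : 0 < A * D - S ^ 2 := by
    have h := lagrange b x y
    rw [hrv] at h
    have h1 : 0 < ∑ σ : K →+* ℂ, ∑ τ : K →+* ℂ, ‖br (w σ) (w τ)‖ ^ 2 := by
      obtain ⟨σ, τ, hst⟩ : ∃ σ τ : K →+* ℂ, σ ≠ τ :=
        Fintype.exists_pair_of_one_lt_card (by omega)
      refine sum_pos' (fun _ _ => sum_nonneg fun _ _ => by positivity) ⟨σ, mem_univ σ, ?_⟩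
      refine sum_pos' (fun _ _ => by positivity) ⟨τ, mem_univ τ, ?_⟩
      have := hwnd σ τ hst
      positivity
    rw [← hA, ← hD, ← hS] at h
    linarith
  have hAC : 0 < A + D := by
    by_contra hcon
    have h1 : A = 0 := by linarith
    rw [h1] at hpos
    nlinarith [sq_nonneg S]
  obtain ⟨m, n, k, l, hdet, r1, r2, r3⟩ := red_exists A S D ((A * D - S ^ 2) / (A + D))
    (by positivity) (by
      intro m n
      rw [div_mul_eq_mul_div, div_le_iff₀ hAC]
      have : (m ^ 2 * A + 2 * m * n * S + n ^ 2 * D) * (A + D) - (A * D - S ^ 2) * (m ^ 2 + n ^ 2) =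
          (m * A + n * S) ^ 2 + (m * S + n * D) ^ 2 := by ring
      nlinarith [sq_nonneg (m * A + n * S), sq_nonneg (m * S + n * D)])
  have hdetC : ‖(((m : ℝ) : ℂ) * ((l : ℝ) : ℂ) - ((n : ℝ) : ℂ) * ((k : ℝ) : ℂ))‖ = 1 := by
    have e : (((m : ℝ) : ℂ) * ((l : ℝ) : ℂ) - ((n : ℝ) : ℂ) * ((k : ℝ) : ℂ)) =
        ((m * l - n * k : ℤ) : ℂ) := by push_cast; ring
    rw [e]
    rcases hdet with h | h <;> rw [h] <;> simp
  have hdet0 : (((m : ℝ) : ℂ) * ((l : ℝ) : ℂ) - ((n : ℝ) : ℂ) * ((k : ℝ) : ℂ)) ≠ 0 := by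
    intro h
    rw [h, norm_zero] at hdetC
    exact zero_ne_one hdetC
  set u' := TT b (v : K) m n k l u with hu'
  have hrw : rw2 b u' = fun σ => gl (m : ℝ) (n : ℝ) (k : ℝ) (l : ℝ) (w σ) := rw2_TT b _ _ _ _ _ u
  have hl : (fun i => u' (Sum.inl i)) = (m : ℝ) • x + (n : ℝ) • y := rfl
  have hr : (fun i => u' (Sum.inr i)) = (k : ℝ) • x + (l : ℝ) • y := rfl
  have hnd' : ∀ σ τ : K →+* ℂ, σ ≠ τ → br (rw2 b u' σ) (rw2 b u' τ) ≠ 0 := by
    intro σ τ hst
    rw [hrw]
    simp only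
    rw [br_gl]
    exact mul_ne_zero hdet0 (hwnd σ τ hst)
  have hq : 0 < bf b (fun i => u' (Sum.inl i)) (fun i => u' (Sum.inl i)) := by
    rw [bf_self]
    obtain ⟨σ, τ, hst⟩ : ∃ σ τ : K →+* ℂ, σ ≠ τ :=
      Fintype.exists_pair_of_one_lt_card (by omega)
    have h1 := hnd' σ τ hst
    by_contra hcon
    have h2 : ∀ ρ : K →+* ℂ, sg b ρ (fun i => u' (Sum.inl i)) = 0 := by
      intro ρ
      by_contra h3
      apply hcon
      refine sum_pos' (fun _ _ => by positivity) ⟨ρ, mem_univ ρ, ?_⟩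
      positivity
    apply h1
    simp only [rw2, rv, br, h2]
    ring
  obtain ⟨j, hj⟩ := exists_nat_one_div_lt hq
  refine ⟨v, m, n, k, l, j, hdet, ?_, ?_, ?_, ?_, hnd', ?_, ?_⟩
  · refine le_trans ?_ hj.le
    have h1 : 0 < 1 / ((j : ℝ) + 1) := by positivity
    have h2 : 1 / ((j : ℝ) + 1) ≤ 1 := by
      rw [div_le_one (by positivity)]
      linarith [(Nat.cast_nonneg j : (0 : ℝ) ≤ j)]
    nlinarith
  · rw [hl, hr, bf_comb, bf_comb]
    exact r1
  · rw [hl, hr, bf_comb2]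
    linarith
  · rw [hl, hr, bf_comb2, bf_comb]
    exact r3
  · rw [hrw, pm_gl, hdetC, one_pow, one_mul, hwpm]
    exact hpm.le
  · intro i
    have h1 : cc (rw2 b u') = cc w := by
      rw [hrw]
      exact cc_gl _ _ _ _ hdet0 w hw0 hwx
    rw [h1]
    exact ⟨(hnz i).1, (hnz i).2.le⟩

theorem vol (h1 : S_BRN K) (_h2 : S_CCC K) : S_VOL K := by
  intro hodd hn I b _hb κ hnull
  classical
  have : Countable K := (b.equivFun.injective).countable
  have hcu : Countable (𝓞 K)ˣ := (NumberField.Units.coe_injective K).countable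
  by_contra hcon
  push Not at hcon
  have hDc : ∀ δ : ℝ, 0 < δ → volume (Dc b κ δ) = 0 := by
    intro δ hδ
    have h3 : Dc b κ δ ⊆ (closure (Dc b κ δ) \ Dm b κ δ) ∪ Dm b κ δ := by
      intro u hu
      by_cases h : u ∈ Dm b κ δ
      · exact Or.inr h
      · exact Or.inl ⟨subset_closure hu, h⟩
    refine measure_mono_null h3 (measure_union_null (hnull δ hδ) ?_)
    exact le_antisymm (hcon δ hδ) bot_le
  set U : Set (Fin (finrank ℚ K) ⊕ Fin (finrank ℚ K) → ℝ) :=
    {u | (∀ σ τ : K →+* ℂ, σ ≠ τ → br (rw2 b u σ) (rw2 b u τ) ≠ 0) ∧ pm (rw2 b u) < 1} with hU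
  have hUopen : IsOpen U := by
    have hlt : IsOpen {u : Fin (finrank ℚ K) ⊕ Fin (finrank ℚ K) → ℝ | pm (rw2 b u) < 1} :=
      isOpen_lt (continuous_pm.comp (continuous_pi fun σ => continuous_rw2 b σ)) continuous_const
    exact (isOpen_nd b).inter hlt
  have hUne : U.Nonempty := by
    -- a point with nonzero brackets
    have h3 : volume {u : Fin (finrank ℚ K) ⊕ Fin (finrank ℚ K) → ℝ |
        ¬ ∀ σ τ : K →+* ℂ, σ ≠ τ → br (rw2 b u σ) (rw2 b u τ) ≠ 0} = 0 := by
      have h4 : {u : Fin (finrank ℚ K) ⊕ Fin (finrank ℚ K) → ℝ |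
          ¬ ∀ σ τ : K →+* ℂ, σ ≠ τ → br (rw2 b u σ) (rw2 b u τ) ≠ 0} ⊆
          ⋃ σ : K →+* ℂ, ⋃ τ : K →+* ℂ, {u | σ ≠ τ ∧ br (rw2 b u σ) (rw2 b u τ) = 0} := by
        intro u hu
        simp only [Set.mem_ofPred_eq] at hu
        push Not at hu
        obtain ⟨σ, τ, h5, h6⟩ := hu
        simp only [Set.mem_iUnion]
        exact ⟨σ, τ, h5, h6⟩
      refine measure_mono_null h4 ?_
      rw [measure_iUnion_null_iff]
      intro σ
      rw [measure_iUnion_null_iff]
      intro τ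
      by_cases hst : σ = τ
      · have : {u : Fin (finrank ℚ K) ⊕ Fin (finrank ℚ K) → ℝ |
            σ ≠ τ ∧ br (rw2 b u σ) (rw2 b u τ) = 0} = ∅ := by
          ext u; simp [hst]
        rw [this]; exact measure_empty
      · refine measure_mono_null ?_ (h1 b σ τ hst)
        intro u hu
        exact hu.2
    obtain ⟨u, hu⟩ : ∃ u : Fin (finrank ℚ K) ⊕ Fin (finrank ℚ K) → ℝ,
        ∀ σ τ : K →+* ℂ, σ ≠ τ → br (rw2 b u σ) (rw2 b u τ) ≠ 0 := by
      by_contra hno
      push Not at hno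
      have h5 : {u : Fin (finrank ℚ K) ⊕ Fin (finrank ℚ K) → ℝ |
          ¬ ∀ σ τ : K →+* ℂ, σ ≠ τ → br (rw2 b u σ) (rw2 b u τ) ≠ 0} = Set.univ := by
        ext u
        simp only [Set.mem_ofPred_eq, Set.mem_univ, iff_true]
        push Not
        exact hno u
      rw [h5] at h3
      have h6 : (0 : ENNReal) < volume (Set.univ :
          Set (Fin (finrank ℚ K) ⊕ Fin (finrank ℚ K) → ℝ)) :=
        isOpen_univ.measure_pos volume Set.univ_nonempty
      rw [h3] at h6
      exact lt_irrefl _ h6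
    set P := pm (rw2 b u) with hP
    have hP0 : 0 ≤ P := pm_nonneg _
    set t : ℝ := 1 / (1 + P) with ht
    have ht0 : 0 < t := by positivity
    have ht1 : t ≤ 1 := by rw [ht, div_le_one (by positivity)]; linarith
    refine ⟨t • u, ?_, ?_⟩
    · intro σ τ hst
      have e : ∀ σ : K →+* ℂ, rw2 b (t • u) σ = gl t 0 0 t (rw2 b u σ) := by
        intro σ
        have e1 : (fun i => (t • u) (Sum.inl i)) = t • (fun i => u (Sum.inl i)) := rfl
        have e2 : (fun i => (t • u) (Sum.inr i)) = t • (fun i => u (Sum.inr i)) := rfl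
        simp only [rw2, rv, gl, e1, e2, sg_smul]
        simp
      rw [e, e, br_gl]
      refine mul_ne_zero ?_ (hu σ τ hst)
      have : (t : ℂ) ≠ 0 := by exact_mod_cast ht0.ne'
      simp [this]
    · have e : rw2 b (t • u) = fun σ => gl t 0 0 t (rw2 b u σ) := by
        funext σ
        have e1 : (fun i => (t • u) (Sum.inl i)) = t • (fun i => u (Sum.inl i)) := rfl
        have e2 : (fun i => (t • u) (Sum.inr i)) = t • (fun i => u (Sum.inr i)) := rfl
        simp only [rw2, rv, gl, e1, e2, sg_smul]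
        simp
      rw [e, pm_gl]
      have e3 : ‖((t : ℂ) * t - 0 * 0)‖ = t * t := by
        rw [mul_zero, sub_zero, norm_mul, Complex.norm_real, Real.norm_eq_abs, abs_of_pos ht0]
      rw [e3, ← hP]
      have h7 : (t * t) ^ Fintype.card (K →+* ℂ) ≤ t * t :=
        pow_le_of_le_one (by positivity) (by nlinarith) (by rw [card_emb]; omega)
      have h8 : t * P < 1 := by
        rw [ht, div_mul_eq_mul_div, one_mul, div_lt_one (by positivity)]
        linarith
      calc (t * t) ^ Fintype.card (K →+* ℂ) * P ≤ (t * t) * P := by gcongr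
        _ = t * (t * P) := by ring
        _ ≤ 1 * (t * P) := by gcongr
        _ < 1 := by rw [one_mul]; exact h8
  have hUnull : volume U = 0 := by
    have h3 : U ⊆ ⋃ q : (𝓞 K)ˣ × (ℤ × ℤ × ℤ × ℤ) × ℕ,
        {u | (q.2.1.1 * q.2.1.2.2.2 - q.2.1.2.1 * q.2.1.2.2.1 = 1 ∨
          q.2.1.1 * q.2.1.2.2.2 - q.2.1.2.1 * q.2.1.2.2.1 = -1) ∧
          TT b (q.1 : K) q.2.1.1 q.2.1.2.1 q.2.1.2.2.1 q.2.1.2.2.2 u ∈
            Dc b κ (1 / ((q.2.2 : ℝ) + 1))} := by
      intro u hu
      obtain ⟨v, m, n, k, l, j, hd, hm⟩ := exists_move hodd hn b κ u hu.1 hu.2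
      rw [Set.mem_iUnion]
      exact ⟨(v, (m, n, k, l), j), hd, hm⟩
    refine measure_mono_null h3 ?_
    rw [measure_iUnion_null_iff]
    rintro ⟨v, ⟨m, n, k, l⟩, j⟩
    simp only
    by_cases hd : m * l - n * k = 1 ∨ m * l - n * k = -1
    · refine measure_mono_null (fun u hu => hu.2) (null_TT b (v := (v : K)) (Units.coe_ne_zero v)
        (m := m) (n := n) (k := k) (l := l) ?_ (hDc (1 / ((j : ℝ) + 1)) (by positivity)))
      rcases hd with h | h
      · have : ((m : ℝ) * l - n * k) = 1 := by exact_mod_cast h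
        rw [this]; norm_num
      · have : ((m : ℝ) * l - n * k) = -1 := by exact_mod_cast h
        rw [this]; norm_num
    · refine measure_mono_null (fun u hu => ?_) (measure_empty (μ := volume))
      exact absurd hu.1 hd
  have := hUopen.measure_pos volume hUne
  rw [hUnull] at this
  exact lt_irrefl _ this

end Pool.Agent.Y983.KF
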